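import Mathlib
import Pool.Agent.Q40.CK.Kernel

namespace Pool.Agent.Results.MP_b3d406_nt.Automatic

open Pool.Agent.Q35

/-- For every positive integer `m` not congruent to `6` modulo `8` the 4-kernel of the sequence
`φ_4(S 4 m n)`, `n ≥ 0`, is finite, where `φ_4(N)` is the largest `s` with `4^s ∣ N`
(all `S 4 m n` are positive). -/
theorem result : ∀ m : ℕ, 1 ≤ m → m % 8 ≠ 6 →
    (∀ n : ℕ, 1 ≤ S 4 m n) ∧
    {s : ℕ → ℕ∞ | ∃ i j : ℕ, j < 4 ^ i ∧
      s = fun n => emultiplicity 4 (S 4 m (4 ^ i * n + j))}.Finite := by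
  intro m h0 hm
  exact ⟨fun n => Pool.Agent.Q40.CK.S_pos 4 m n h0,
    Pool.Agent.Q40.CK.automatic_main m h0 hm⟩

end Pool.Agent.Results.MP_b3d406_nt.Automatic
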